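import Mathlib

/-!
Digraphs on a finite set, given by the relation `A v u`: there is an arc from `v` to `u`.
-/

set_option autoImplicit false

namespace Pool.Agent.H36.ME

open Finset Classical

/-- The number of out-neighbours of `v`. -/
noncomputable def outdeg {V : Type} [Fintype V] (A : V → V → Prop) (v : V) : ℕ :=
  (univ.filter fun u => A v u).card

/-- The number of in-neighbours of `v`. -/
noncomputable def indeg {V : Type} [Fintype V] (A : V → V → Prop) (v : V) : ℕ :=
  (univ.filter fun u => A u v).card

/-- The number of out-neighbours of `v` that have the colour of `v` under `f`. -/
noncomputable def own {V α : Type} [Fintype V] (A : V → V → Prop) (f : V → α) (v : V) : ℕ :=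
  (univ.filter fun u => A v u ∧ f u = f v).card

end Pool.Agent.H36.ME
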