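import Mathlib
import Pool.Agent.H28.LLL

/-!
The asymmetric Lovász local lemma for the uniform distribution on functions `V → κ`
(counting version).
-/

set_option autoImplicit false
set_option linter.unusedSectionVars false

namespace Pool.Agent.H36.ME

open Finset Pool.Agent.H28

variable {V : Type*} [Fintype V] [DecidableEq V] {κ : Type*} [Fintype κ] [DecidableEq κ]

theorem lll_key {ι : Type*} [Fintype ι] [DecidableEq ι] (A : ι → Finset (V → κ))
    (N : ι → Finset V) (hdep : ∀ i, DependsOnly (A i) (N i)) (x : ι → ℝ) (hx0 : ∀ i, 0 ≤ x i)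
    (hx1 : ∀ i, x i < 1)
    (hA : ∀ i, ((A i).card : ℝ) ≤
      (x i * ∏ j ∈ univ.filter (fun j => j ≠ i ∧ ¬ Disjoint (N i) (N j)), (1 - x j)) *
        Fintype.card (V → κ))
    (hne : 0 < Fintype.card (V → κ))
    (I : Finset ι → Finset (V → κ)) (hI : ∀ S f, f ∈ I S ↔ ∀ i ∈ S, f ∉ A i) :
    ∀ (n : ℕ) (S : Finset ι), S.card ≤ n → ∀ i, i ∉ S →
      ((A i ∩ I S).card : ℝ) ≤ x i * (I S).card := by
  have hΩ : (0 : ℝ) < Fintype.card (V → κ) := by exact_mod_cast hne
  intro n
  induction n using Nat.strong_induction_on with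
  | _ n ih =>
  intro S hS i hi
  obtain ⟨G, hG⟩ : ∃ G, G = univ.filter (fun j => j ≠ i ∧ ¬ Disjoint (N i) (N j)) := ⟨_, rfl⟩
  obtain ⟨S1, hS1⟩ : ∃ S1, S1 = S.filter (fun j => ¬ Disjoint (N i) (N j)) := ⟨_, rfl⟩
  obtain ⟨S2, hS2⟩ : ∃ S2, S2 = S.filter (fun j => Disjoint (N i) (N j)) := ⟨_, rfl⟩
  have hS12 : S2 ⊆ S := by rw [hS2]; exact Finset.filter_subset _ _
  have hS1G : S1 ⊆ G := by
    intro j hj
    simp only [hS1, Finset.mem_filter] at hj
    simp only [hG, Finset.mem_filter, Finset.mem_univ, true_and]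
    exact ⟨fun h => hi (h ▸ hj.1), hj.2⟩
  -- independence
  have hind : ((A i ∩ I S2).card : ℝ) ≤ (x i * ∏ j ∈ G, (1 - x j)) * (I S2).card := by
    have hdis : Disjoint (N i) (N i)ᶜ := disjoint_compl_right
    have hB : DependsOnly (I S2) (N i)ᶜ := by
      intro f g hfg hf
      rw [hI] at hf ⊢
      intro j hj hgA
      refine hf j hj (hdep j g f (fun v hv => (hfg v ?_).symm) hgA)
      rw [Finset.mem_compl]
      simp only [hS2, Finset.mem_filter] at hj
      exact fun h => (Finset.disjoint_left.1 hj.2) h hv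
    have h := card_inter_mul (A i) (I S2) (N i) (N i)ᶜ hdis (hdep i) hB
    have h' : ((A i ∩ I S2).card : ℝ) * Fintype.card (V → κ) = (A i).card * (I S2).card := by
      exact_mod_cast h
    have h2 : ((A i ∩ I S2).card : ℝ) * Fintype.card (V → κ) ≤
        ((x i * ∏ j ∈ G, (1 - x j)) * (I S2).card) * Fintype.card (V → κ) := by
      rw [h']
      have h3 := hA i
      rw [← hG] at h3
      have := mul_le_mul_of_nonneg_right h3 (Nat.cast_nonneg (α := ℝ) (I S2).card)
      calc ((A i).card : ℝ) * (I S2).card ≤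
            (x i * ∏ j ∈ G, (1 - x j)) * Fintype.card (V → κ) * (I S2).card := this
        _ = _ := by ring
    exact le_of_mul_le_mul_right h2 hΩ
  have hsub : I S ⊆ I S2 := by
    intro f hf
    rw [hI] at hf ⊢
    exact fun j hj => hf j (hS12 hj)
  have hle1 : ((A i ∩ I S).card : ℝ) ≤ (A i ∩ I S2).card := by
    exact_mod_cast Finset.card_le_card (Finset.inter_subset_inter_left hsub)
  -- lower bound for I S
  have hstep : ∀ T : Finset ι, T ⊆ S1 →
      (∏ j ∈ T, (1 - x j)) * ((I S2).card : ℝ) ≤ (I (S2 ∪ T)).card := by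
    intro T
    induction T using Finset.induction_on with
    | empty =>
      intro _
      rw [Finset.prod_empty, one_mul, Finset.union_empty]
    | insert j T hj ihT =>
      intro hT
      have hjS1 : j ∈ S1 := hT (Finset.mem_insert_self _ _)
      have hTS1 : T ⊆ S1 := fun k hk => hT (Finset.mem_insert_of_mem hk)
      have hjS2 : j ∉ S2 := by
        intro h
        rw [hS2, Finset.mem_filter] at h
        rw [hS1, Finset.mem_filter] at hjS1
        exact hjS1.2 h.2
      have hjU : j ∉ S2 ∪ T := by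
        rw [Finset.mem_union]
        rintro (h | h)
        · exact hjS2 h
        · exact hj h
      have hUS : S2 ∪ T ⊆ S := Finset.union_subset hS12
        (hTS1.trans (by rw [hS1]; exact Finset.filter_subset _ _))
      have hlt : (S2 ∪ T).card < S.card := by
        apply Finset.card_lt_card
        refine ⟨hUS, fun h => hjU (h ?_)⟩
        rw [hS1, Finset.mem_filter] at hjS1
        exact hjS1.1
      have hk := ih (S2 ∪ T).card (lt_of_lt_of_le hlt hS) (S2 ∪ T) le_rfl j hjU
      have hsplit : I (S2 ∪ T) ⊆ I (S2 ∪ insert j T) ∪ (A j ∩ I (S2 ∪ T)) := by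
        intro f hf
        by_cases hfj : f ∈ A j
        · exact Finset.mem_union_right _ (Finset.mem_inter.2 ⟨hfj, hf⟩)
        · apply Finset.mem_union_left
          rw [hI] at hf ⊢
          intro k hk2
          rw [Finset.mem_union, Finset.mem_insert] at hk2
          rcases hk2 with hk2 | rfl | hk2
          · exact hf k (Finset.mem_union_left _ hk2)
          · exact hfj
          · exact hf k (Finset.mem_union_right _ hk2)
      have h1 := (Finset.card_le_card hsplit).trans (Finset.card_union_le _ _)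
      have h2 : ((I (S2 ∪ T)).card : ℝ) ≤
          (I (S2 ∪ insert j T)).card + (A j ∩ I (S2 ∪ T)).card := by exact_mod_cast h1
      have h3 := ihT hTS1
      have h4 : 0 < 1 - x j := by linarith [hx1 j]
      rw [Finset.prod_insert hj]
      have h5 := mul_le_mul_of_nonneg_left h3 h4.le
      have h6 : (1 - x j) * (∏ j ∈ T, (1 - x j)) * ((I S2).card : ℝ) =
        (1 - x j) * ((∏ j ∈ T, (1 - x j)) * ((I S2).card : ℝ)) := by ring
      rw [h6]
      linarith
  have hS12u : S2 ∪ S1 = S := by
    ext j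
    rw [Finset.mem_union, hS1, hS2, Finset.mem_filter, Finset.mem_filter]
    constructor
    · rintro (h | h)
      · exact h.1
      · exact h.1
    · intro h
      by_cases h2 : Disjoint (N i) (N j)
      · exact Or.inl ⟨h, h2⟩
      · exact Or.inr ⟨h, h2⟩
  have hlow := hstep S1 (Finset.Subset.refl _)
  rw [hS12u] at hlow
  have hprod : ∏ j ∈ G, (1 - x j) ≤ ∏ j ∈ S1, (1 - x j) := by
    rw [← Finset.prod_sdiff hS1G]
    have h1 : ∏ j ∈ G \ S1, (1 - x j) ≤ 1 :=
      Finset.prod_le_one (fun j _ => by linarith [hx1 j]) (fun j _ => by linarith [hx0 j])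
    have h2 : 0 ≤ ∏ j ∈ S1, (1 - x j) := Finset.prod_nonneg (fun j _ => by linarith [hx1 j])
    have := mul_le_mul_of_nonneg_right h1 h2
    linarith
  have hc0 : (0 : ℝ) ≤ (I S2).card := Nat.cast_nonneg _
  calc ((A i ∩ I S).card : ℝ) ≤ (A i ∩ I S2).card := hle1
    _ ≤ (x i * ∏ j ∈ G, (1 - x j)) * (I S2).card := hind
    _ = x i * ((∏ j ∈ G, (1 - x j)) * (I S2).card) := by ring
    _ ≤ x i * ((∏ j ∈ S1, (1 - x j)) * (I S2).card) :=
        mul_le_mul_of_nonneg_left (mul_le_mul_of_nonneg_right hprod hc0) (hx0 i)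
    _ ≤ x i * (I S).card := mul_le_mul_of_nonneg_left hlow (hx0 i)

/-- The asymmetric local lemma (counting version). -/
theorem lll {ι : Type*} [Fintype ι] [DecidableEq ι] (A : ι → Finset (V → κ))
    (N : ι → Finset V) (hdep : ∀ i, DependsOnly (A i) (N i)) (x : ι → ℝ) (hx0 : ∀ i, 0 ≤ x i)
    (hx1 : ∀ i, x i < 1)
    (hA : ∀ i, ((A i).card : ℝ) ≤
      (x i * ∏ j ∈ univ.filter (fun j => j ≠ i ∧ ¬ Disjoint (N i) (N j)), (1 - x j)) *
        Fintype.card (V → κ))
    (hne : 0 < Fintype.card (V → κ)) :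
    ∃ f : V → κ, ∀ i, f ∉ A i := by
  obtain ⟨I, hI⟩ : ∃ I : Finset ι → Finset (V → κ), ∀ S f, f ∈ I S ↔ ∀ i ∈ S, f ∉ A i :=
    ⟨fun S => Finset.univ.filter (fun f => ∀ i ∈ S, f ∉ A i), fun S f => by simp⟩
  have key := lll_key A N hdep x hx0 hx1 hA hne I hI
  have hpos : ∀ S : Finset ι, 0 < (I S).card := by
    intro S
    induction S using Finset.induction_on with
    | empty =>
      have : I ∅ = Finset.univ := by
        ext f; simp [hI]
      rw [this, Finset.card_univ]
      exact hne
    | insert i S hi ih =>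
      have hk := key S.card S le_rfl i hi
      have hsub : I S ⊆ I (insert i S) ∪ (A i ∩ I S) := by
        intro f hf
        by_cases hfi : f ∈ A i
        · exact Finset.mem_union_right _ (Finset.mem_inter.2 ⟨hfi, hf⟩)
        · apply Finset.mem_union_left
          rw [hI] at hf ⊢
          intro j hj
          rw [Finset.mem_insert] at hj
          rcases hj with rfl | hj
          · exact hfi
          · exact hf j hj
      have h1 := (Finset.card_le_card hsub).trans (Finset.card_union_le _ _)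
      have h2 : ((I S).card : ℝ) ≤ (I (insert i S)).card + (A i ∩ I S).card := by exact_mod_cast h1
      have h3 : (0 : ℝ) < (I S).card := by exact_mod_cast ih
      have h5 : 0 < (1 - x i) * ((I S).card : ℝ) := mul_pos (by linarith [hx1 i]) h3
      have h4 : (0 : ℝ) < (I (insert i S)).card := by nlinarith
      exact_mod_cast h4
  obtain ⟨f, hf⟩ := Finset.card_pos.1 (hpos Finset.univ)
  exact ⟨f, fun i => (hI _ f).1 hf i (Finset.mem_univ _)⟩

/-- The form with exponentials. -/
theorem lll_exp {ι : Type*} [Fintype ι] [DecidableEq ι] (A : ι → Finset (V → κ))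
    (N : ι → Finset V) (hdep : ∀ i, DependsOnly (A i) (N i)) (x : ι → ℝ) (hx0 : ∀ i, 0 ≤ x i)
    (hx1 : ∀ i, x i ≤ 1 / 2)
    (hA : ∀ i, ((A i).card : ℝ) ≤
      (x i * Real.exp (-(2 * ∑ j ∈ univ.filter (fun j => j ≠ i ∧ ¬ Disjoint (N i) (N j)), x j))) *
        Fintype.card (V → κ))
    (hne : 0 < Fintype.card (V → κ)) :
    ∃ f : V → κ, ∀ i, f ∉ A i := by
  have hbase : ∀ y : ℝ, 0 ≤ y → y ≤ 1 / 2 → Real.exp (-(2 * y)) ≤ 1 - y := by
    intro y hy0 hy1
    have h1 : 1 + 2 * y ≤ Real.exp (2 * y) := by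
      have := Real.add_one_le_exp (2 * y)
      linarith
    rw [Real.exp_neg]
    rw [inv_le_comm₀ (Real.exp_pos _) (by linarith)]
    refine le_trans ?_ h1
    rw [inv_le_iff_one_le_mul₀ (by linarith)]
    nlinarith
  refine lll A N hdep x hx0 (fun i => by linarith [hx1 i]) (fun i => ?_) hne
  refine (hA i).trans (mul_le_mul_of_nonneg_right ?_ (Nat.cast_nonneg _))
  refine mul_le_mul_of_nonneg_left ?_ (hx0 i)
  rw [Finset.mul_sum, ← Finset.sum_neg_distrib, Real.exp_sum]
  exact Finset.prod_le_prod (fun j _ => (Real.exp_pos _).le)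
    (fun j _ => hbase (x j) (hx0 j) (hx1 j))

end Pool.Agent.H36.ME
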