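import Mathlib
import Pool.Agent.H36.ME.LLL

/-!
Concentration for random bits and the balanced choice from two-element lists.
-/

set_option autoImplicit false

namespace Pool.Agent.H36.ME

open Finset Classical Pool.Agent.H28

/-- Hoeffding's inequality for random bits, counting version. -/
theorem tail {V : Type} [Fintype V] (T : Finset V) (s : V → Bool) (d δ : ℝ)
    (hd : (T.card : ℝ) ≤ d) (hδ : 0 ≤ δ) :
    ((univ.filter (fun ω : V → Bool => (T.card : ℝ) / 2 + δ * d ≤
      ((T.filter (fun u => ω u = s u)).card : ℝ))).card : ℝ) ≤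
      Real.exp (-(2 * δ ^ 2 * d)) * 2 ^ Fintype.card V := by
  obtain ⟨B, hB⟩ : ∃ B, B = univ.filter (fun ω : V → Bool => (T.card : ℝ) / 2 + δ * d ≤
      ((T.filter (fun u => ω u = s u)).card : ℝ)) := ⟨_, rfl⟩
  rw [← hB]
  obtain ⟨l, hl⟩ : ∃ l : ℝ, l = 2 * δ := ⟨_, rfl⟩
  obtain ⟨F, hF⟩ : ∃ F : (V → Bool) → ℝ, F = fun ω => ∏ u, (if u ∈ T then
    (if ω u = s u then Real.exp l else Real.exp (-l)) else 1) := ⟨_, rfl⟩
  have hFpos : ∀ ω, 0 < F ω := by
    intro ω
    rw [hF]
    refine Finset.prod_pos fun u _ => ?_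
    split_ifs
    · exact Real.exp_pos _
    · exact Real.exp_pos _
    · exact one_pos
  have hFe : ∀ ω, F ω = Real.exp (l * (2 * ((T.filter (fun u => ω u = s u)).card : ℝ) - T.card)) := by
    intro ω
    rw [hF]
    change (∏ u, (if u ∈ T then (if ω u = s u then Real.exp l else Real.exp (-l)) else 1)) = _
    rw [Finset.prod_ite_mem, Finset.univ_inter, Finset.prod_ite, Finset.prod_const,
      Finset.prod_const, ← Real.exp_nat_mul, ← Real.exp_nat_mul, ← Real.exp_add]
    congr 1
    have h1 := Finset.card_filter_add_card_filter_not (s := T) (fun u => ω u = s u)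
    have h2 : ((T.filter (fun u => ω u = s u)).card : ℝ) +
      ((T.filter (fun u => ¬ ω u = s u)).card : ℝ) = T.card := by exact_mod_cast h1
    rw [← h2]
    ring
  have hsum : ∑ ω, F ω ≤ 2 ^ Fintype.card V * Real.exp (l ^ 2 / 2 * T.card) := by
    have h2 := Fintype.prod_sum (ι := V) (κ := fun _ => Bool)
      (fun u k => (if u ∈ T then (if k = s u then Real.exp l else Real.exp (-l)) else (1:ℝ)))
    rw [hF]
    change (∑ ω : V → Bool, ∏ u, (if u ∈ T then
      (if ω u = s u then Real.exp l else Real.exp (-l)) else (1:ℝ))) ≤ _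
    rw [← h2]
    have h3 : ∀ u, (∑ k : Bool, (if u ∈ T then (if k = s u then Real.exp l else Real.exp (-l))
        else (1:ℝ))) ≤ 2 * (if u ∈ T then Real.exp (l ^ 2 / 2) else 1) := by
      intro u
      by_cases hu : u ∈ T
      · simp only [hu, if_true]
        have h4 : (∑ k : Bool, (if k = s u then Real.exp l else Real.exp (-l))) =
            2 * Real.cosh l := by
          rw [Real.cosh_eq]
          rcases hs : s u with _ | _
          · rw [Fintype.sum_bool]
            simp
            ring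
          · rw [Fintype.sum_bool]
            simp
            ring
        rw [h4]
        have := Real.cosh_le_exp_half_sq l
        linarith
      · simp [hu]
    refine (Finset.prod_le_prod (fun u _ => ?_) (fun u _ => h3 u)).trans (le_of_eq ?_)
    · refine Finset.sum_nonneg fun k _ => ?_
      split_ifs
      · exact (Real.exp_pos _).le
      · exact (Real.exp_pos _).le
      · exact zero_le_one
    · rw [Finset.prod_mul_distrib, Finset.prod_const, Finset.card_univ, Finset.prod_ite_mem,
        Finset.univ_inter, Finset.prod_const, ← Real.exp_nat_mul]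
      congr 2
      ring
  have hlow : (B.card : ℝ) * Real.exp (l * (2 * (δ * d))) ≤ ∑ ω, F ω := by
    rw [← nsmul_eq_mul, ← Finset.sum_const]
    refine (Finset.sum_le_sum (fun ω hω => ?_)).trans
      (Finset.sum_le_sum_of_subset_of_nonneg (Finset.subset_univ B) (fun ω _ _ => (hFpos ω).le))
    rw [hFe ω]
    apply Real.exp_le_exp.2
    refine mul_le_mul_of_nonneg_left ?_ (by rw [hl]; linarith)
    rw [hB, Finset.mem_filter] at hω
    have := hω.2
    linarith
  have h1 := hlow.trans hsum
  have h2 : (B.card : ℝ) = (B.card : ℝ) * Real.exp (l * (2 * (δ * d))) *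
      Real.exp (-(l * (2 * (δ * d)))) := by
    rw [mul_assoc, ← Real.exp_add, add_neg_cancel, Real.exp_zero, mul_one]
  rw [h2]
  refine (mul_le_mul_of_nonneg_right h1 (Real.exp_pos _).le).trans ?_
  rw [mul_assoc, ← Real.exp_add, mul_comm]
  refine mul_le_mul_of_nonneg_right ?_ (by positivity)
  apply Real.exp_le_exp.2
  rw [hl]
  have h3 := mul_le_mul_of_nonneg_left hd (by positivity : (0:ℝ) ≤ 2 * δ ^ 2)
  nlinarith

/-- The tail bound for one colour when every element picks one of two colours. -/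
theorem tail_colour {V α : Type} [Fintype V] (S : Finset V) (a b : V → α)
    (hab : ∀ u, a u ≠ b u) (c : α) (d δ : ℝ) (hd : (S.card : ℝ) ≤ d) (hδ : 0 ≤ δ) :
    ((univ.filter (fun ω : V → Bool => (S.card : ℝ) / 2 + δ * d <
      ((S.filter (fun u => (if ω u = true then a u else b u) = c)).card : ℝ))).card : ℝ) ≤
      Real.exp (-(2 * δ ^ 2 * d)) * 2 ^ Fintype.card V := by
  obtain ⟨T, hT⟩ : ∃ T, T = S.filter (fun u => a u = c ∨ b u = c) := ⟨_, rfl⟩
  have hTS : T ⊆ S := by rw [hT]; exact filter_subset _ _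
  have hTc : (T.card : ℝ) ≤ S.card := by exact_mod_cast card_le_card hTS
  refine le_trans ?_ (tail T (fun u => decide (a u = c)) d δ (hTc.trans hd) hδ)
  refine Nat.cast_le.2 (card_le_card fun ω hω => ?_)
  rw [mem_filter] at hω ⊢
  refine ⟨mem_univ _, ?_⟩
  have h1 : S.filter (fun u => (if ω u = true then a u else b u) = c) ⊆
      T.filter (fun u => ω u = decide (a u = c)) := by
    intro u hu
    rw [mem_filter] at hu ⊢
    rw [hT, mem_filter]
    obtain ⟨hu1, hu2⟩ := hu
    rcases hω' : ω u with _ | _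
    · rw [hω', if_neg (by simp)] at hu2
      refine ⟨⟨hu1, Or.inr hu2⟩, ?_⟩
      have h3 : a u ≠ c := fun h => hab u (h.trans hu2.symm)
      simp [h3]
    · rw [hω', if_pos rfl] at hu2
      refine ⟨⟨hu1, Or.inl hu2⟩, ?_⟩
      simp [hu2]
  have h2 : ((S.filter (fun u => (if ω u = true then a u else b u) = c)).card : ℝ) ≤
      ((T.filter (fun u => ω u = decide (a u = c))).card : ℝ) := by
    exact_mod_cast card_le_card h1
  linarith [hω.2]

/-- Every element `u` picks one of two colours, such that in every test set `S i` each of the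
colours in `L i` occurs at most `|S i| / 2 + δ d i` times. -/
theorem stage {V α ι : Type} [Fintype V] [Fintype ι] (S : ι → Finset V) (L : ι → Finset α)
    (d : ι → ℝ) (D M δ : ℝ) (a b : V → α) (hab : ∀ u, a u ≠ b u) (hL : ∀ i, (L i).card ≤ 3)
    (hS : ∀ i, ((S i).card : ℝ) ≤ d i) (hD : ∀ i, D ≤ d i)
    (hM : ∀ u, ((univ.filter fun i => u ∈ S i).card : ℝ) ≤ M) (hM0 : 0 ≤ M) (hδ : 0 ≤ δ)
    (c1 : 4 ≤ δ ^ 2 * D) (c2 : 4 * M * Real.exp (-(δ ^ 2 * D)) ≤ δ ^ 2) :
    ∃ ω : V → Bool, ∀ i, ∀ c ∈ L i,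
      (((S i).filter (fun u => (if ω u = true then a u else b u) = c)).card : ℝ) ≤
        ((S i).card : ℝ) / 2 + δ * d i := by
  have hN : (0 : ℝ) < 2 ^ Fintype.card V := by positivity
  have hcardΩ : (Fintype.card (V → Bool) : ℝ) = 2 ^ Fintype.card V := by
    rw [Fintype.card_fun, Fintype.card_bool]
    push_cast
    rfl
  have hD0 : 0 < D := by
    by_contra hcon
    rw [not_lt] at hcon
    have := mul_nonpos_of_nonneg_of_nonpos (sq_nonneg δ) hcon
    linarith
  have hd0 : ∀ i, 0 < d i := fun i => lt_of_lt_of_le hD0 (hD i)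
  obtain ⟨A, hA⟩ : ∃ A : ι → Finset (V → Bool), A = fun i => univ.filter (fun ω : V → Bool =>
      ∃ c ∈ L i, ((S i).card : ℝ) / 2 + δ * d i <
        (((S i).filter (fun u => (if ω u = true then a u else b u) = c)).card : ℝ)) := ⟨_, rfl⟩
  have hAm : ∀ i ω, ω ∈ A i ↔ ∃ c ∈ L i, ((S i).card : ℝ) / 2 + δ * d i <
        (((S i).filter (fun u => (if ω u = true then a u else b u) = c)).card : ℝ) := by
    intro i ω
    rw [hA]
    simp only [mem_filter, mem_univ, true_and]
  have hdep : ∀ i, DependsOnly (A i) (S i) := by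
    intro i f g hfg hf
    rw [hAm] at hf ⊢
    obtain ⟨c, hc, h⟩ := hf
    refine ⟨c, hc, ?_⟩
    have h1 : (S i).filter (fun u => (if g u = true then a u else b u) = c) =
        (S i).filter (fun u => (if f u = true then a u else b u) = c) :=
      filter_congr fun u hu => by rw [hfg u hu]
    rw [h1]
    exact h
  have hAc : ∀ i, ((A i).card : ℝ) ≤ 3 * Real.exp (-(2 * δ ^ 2 * d i)) * 2 ^ Fintype.card V := by
    intro i
    have hsub : A i ⊆ (L i).biUnion (fun c => univ.filter (fun ω : V → Bool =>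
        ((S i).card : ℝ) / 2 + δ * d i <
        (((S i).filter (fun u => (if ω u = true then a u else b u) = c)).card : ℝ))) := by
      intro ω hω
      rw [hAm] at hω
      obtain ⟨c, hc, h⟩ := hω
      rw [mem_biUnion]
      exact ⟨c, hc, mem_filter.2 ⟨mem_univ _, h⟩⟩
    have h1 := (card_le_card hsub).trans card_biUnion_le
    have h2 : ((A i).card : ℝ) ≤ ∑ c ∈ L i, ((univ.filter (fun ω : V → Bool =>
        ((S i).card : ℝ) / 2 + δ * d i <
        (((S i).filter (fun u => (if ω u = true then a u else b u) = c)).card : ℝ))).card : ℝ) := by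
      exact_mod_cast h1
    refine h2.trans ((sum_le_sum fun c _ =>
      tail_colour (S i) a b hab c (d i) δ (hS i) hδ).trans ?_)
    rw [sum_const, nsmul_eq_mul]
    have h3 : ((L i).card : ℝ) ≤ 3 := by exact_mod_cast hL i
    calc ((L i).card : ℝ) * (Real.exp (-(2 * δ ^ 2 * d i)) * 2 ^ Fintype.card V) ≤
          3 * (Real.exp (-(2 * δ ^ 2 * d i)) * 2 ^ Fintype.card V) :=
          mul_le_mul_of_nonneg_right h3 (by positivity)
      _ = _ := by ring
  obtain ⟨x, hx⟩ : ∃ x : ι → ℝ, x = fun i => Real.exp (-(δ ^ 2 * d i)) := ⟨_, rfl⟩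
  have hxi : ∀ i, x i = Real.exp (-(δ ^ 2 * d i)) := fun i => by rw [hx]
  have hxD : ∀ i, x i ≤ Real.exp (-(δ ^ 2 * D)) := by
    intro i
    rw [hxi]
    apply Real.exp_le_exp.2
    have := mul_le_mul_of_nonneg_left (hD i) (sq_nonneg δ)
    linarith
  have hxhalf : ∀ i, x i ≤ 1 / 2 := by
    intro i
    refine (hxD i).trans ?_
    have h1 : Real.exp (-(δ ^ 2 * D)) ≤ Real.exp (-1) := Real.exp_le_exp.2 (by linarith)
    refine h1.trans ?_
    rw [Real.exp_neg, inv_le_comm₀ (Real.exp_pos _) (by norm_num)]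
    have := Real.add_one_le_exp (1 : ℝ)
    norm_num at this ⊢
    linarith
  have hΓ : ∀ i, ∑ j ∈ univ.filter (fun j => j ≠ i ∧ ¬ Disjoint (S i) (S j)), x j ≤
      d i * M * Real.exp (-(δ ^ 2 * D)) := by
    intro i
    have hcard : ((univ.filter (fun j => j ≠ i ∧ ¬ Disjoint (S i) (S j))).card : ℝ) ≤
        (S i).card * M := by
      have hsub : univ.filter (fun j => j ≠ i ∧ ¬ Disjoint (S i) (S j)) ⊆
          (S i).biUnion (fun u => univ.filter fun j => u ∈ S j) := by
        intro j hj
        rw [mem_filter] at hj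
        have h1 := hj.2.2
        rw [not_disjoint_iff] at h1
        obtain ⟨u, hu1, hu2⟩ := h1
        rw [mem_biUnion]
        exact ⟨u, hu1, mem_filter.2 ⟨mem_univ _, hu2⟩⟩
      have h1 := (card_le_card hsub).trans card_biUnion_le
      have h2 : ((univ.filter (fun j => j ≠ i ∧ ¬ Disjoint (S i) (S j))).card : ℝ) ≤
          ∑ u ∈ S i, ((univ.filter fun j => u ∈ S j).card : ℝ) := by exact_mod_cast h1
      refine h2.trans ((sum_le_sum fun u _ => hM u).trans ?_)
      rw [sum_const, nsmul_eq_mul]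
    have hE := Real.exp_pos (-(δ ^ 2 * D))
    calc ∑ j ∈ univ.filter (fun j => j ≠ i ∧ ¬ Disjoint (S i) (S j)), x j ≤
          ∑ _j ∈ univ.filter (fun j => j ≠ i ∧ ¬ Disjoint (S i) (S j)),
            Real.exp (-(δ ^ 2 * D)) := sum_le_sum fun j _ => hxD j
      _ = ((univ.filter (fun j => j ≠ i ∧ ¬ Disjoint (S i) (S j))).card : ℝ) *
            Real.exp (-(δ ^ 2 * D)) := by rw [sum_const, nsmul_eq_mul]
      _ ≤ ((S i).card * M) * Real.exp (-(δ ^ 2 * D)) :=
          mul_le_mul_of_nonneg_right hcard hE.le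
      _ ≤ d i * M * Real.exp (-(δ ^ 2 * D)) := by
          exact mul_le_mul_of_nonneg_right (mul_le_mul_of_nonneg_right (hS i) hM0) hE.le
  obtain ⟨ω, hω⟩ := lll_exp A S hdep x (fun i => by rw [hxi]; exact (Real.exp_pos _).le) hxhalf
    (fun i => by
      rw [hcardΩ]
      refine (hAc i).trans (mul_le_mul_of_nonneg_right ?_ hN.le)
      rw [hxi i, ← Real.exp_add]
      have h3 : (3 : ℝ) ≤ Real.exp (δ ^ 2 * d i / 2) := by
        have h4 := Real.add_one_le_exp (δ ^ 2 * d i / 2)
        have h5 := mul_le_mul_of_nonneg_left (hD i) (sq_nonneg δ)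
        linarith
      have h4 : 3 * Real.exp (-(2 * δ ^ 2 * d i)) ≤
          Real.exp (δ ^ 2 * d i / 2) * Real.exp (-(2 * δ ^ 2 * d i)) :=
        mul_le_mul_of_nonneg_right h3 (Real.exp_pos _).le
      refine h4.trans ?_
      rw [← Real.exp_add]
      apply Real.exp_le_exp.2
      have h5 := hΓ i
      have h6 : d i * (4 * M * Real.exp (-(δ ^ 2 * D))) ≤ d i * δ ^ 2 :=
        mul_le_mul_of_nonneg_left c2 (hd0 i).le
      have h7 : d i * (4 * M * Real.exp (-(δ ^ 2 * D))) =
        4 * (d i * M * Real.exp (-(δ ^ 2 * D))) := by ring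
      rw [h7] at h6
      linarith)
    (by
      rw [Fintype.card_fun, Fintype.card_bool]
      positivity)
  refine ⟨ω, fun i c hc => ?_⟩
  by_contra hcon
  rw [not_le] at hcon
  exact hω i ((hAm i ω).2 ⟨c, hc, hcon⟩)

end Pool.Agent.H36.ME
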