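import Mathlib
import Pool.Agent.H36.ME.Defs
import Pool.Agent.H36.ME.Stage

/-!
The induction over the levels.
-/

set_option autoImplicit false

namespace Pool.Agent.H36.ME

open Finset Classical

/-- The numerical conditions of a stage. -/
theorem num {B δ D M : ℝ} (hB : 1 ≤ B) (hδ : 0 < δ) (hδ1 : δ ≤ 1 / 2)
    (h : 20 * Real.log (B / δ) ≤ δ ^ 2 * D) (hM : M ≤ 16 * B * D) :
    4 ≤ δ ^ 2 * D ∧ 4 * M * Real.exp (-(δ ^ 2 * D)) ≤ δ ^ 2 := by
  have hB0 : 0 < B := by linarith
  have h2 : 2 ≤ B / δ := by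
    rw [le_div_iff₀ hδ]
    linarith
  have hlog : Real.log 2 ≤ Real.log (B / δ) := Real.log_le_log (by norm_num) h2
  have hlog2 := Real.log_two_gt_d9
  have h4 : 4 ≤ δ ^ 2 * D := by
    norm_num at hlog2
    linarith
  refine ⟨h4, ?_⟩
  have hδ2 : 0 < δ ^ 2 := by positivity
  obtain ⟨z, hz⟩ : ∃ z : ℝ, z = δ ^ 2 * D := ⟨_, rfl⟩
  rw [← hz] at h h4 ⊢
  have hD : D = z / δ ^ 2 := by
    rw [hz]
    field_simp
  have hz0 : 0 < z := by linarith
  have hE := Real.exp_pos (-z)
  -- z ≤ exp (z / 2)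
  have h5 : z ≤ Real.exp (z / 2) := by
    have h6 : z / 4 + 1 ≤ Real.exp (z / 4) := Real.add_one_le_exp _
    have h7 : Real.exp (z / 2) = Real.exp (z / 4) ^ 2 := by
      rw [← Real.exp_nat_mul]
      congr 1
      push_cast
      ring
    rw [h7]
    have h8 : (z / 4 + 1) ^ 2 ≤ Real.exp (z / 4) ^ 2 := pow_le_pow_left₀ (by positivity) h6 2
    nlinarith [sq_nonneg (z / 4 - 1)]
  have h6 : z * Real.exp (-z) ≤ (δ / B) ^ 10 := by
    have h7 : z * Real.exp (-z) ≤ Real.exp (z / 2) * Real.exp (-z) :=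
      mul_le_mul_of_nonneg_right h5 hE.le
    refine h7.trans ?_
    rw [← Real.exp_add]
    have h8 : (δ / B) ^ 10 = Real.exp (-(10 * Real.log (B / δ))) := by
      rw [Real.exp_neg, show (10 : ℝ) * Real.log (B / δ) = ((10 : ℕ) : ℝ) * Real.log (B / δ) by
        norm_num, Real.exp_nat_mul, Real.exp_log (by positivity), ← inv_pow, inv_div]
    rw [h8]
    apply Real.exp_le_exp.2
    linarith
  have h7 : 4 * M * Real.exp (-z) ≤ 64 * B * (z * Real.exp (-z)) / δ ^ 2 := by
    have h8 : M * Real.exp (-z) ≤ 16 * B * D * Real.exp (-z) :=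
      mul_le_mul_of_nonneg_right hM hE.le
    have h9 : 4 * (16 * B * D * Real.exp (-z)) = 64 * B * (z * Real.exp (-z)) / δ ^ 2 := by
      rw [hD]
      ring
    linarith
  refine h7.trans ?_
  rw [div_le_iff₀ hδ2]
  have h8 : 64 * B * (z * Real.exp (-z)) ≤ 64 * B * (δ / B) ^ 10 :=
    mul_le_mul_of_nonneg_left h6 (by positivity)
  refine h8.trans ?_
  have h9 : 64 * B * (δ / B) ^ 10 = 64 * δ ^ 10 / B ^ 9 := by
    field_simp
  rw [h9, div_le_iff₀ (by positivity)]
  have h10 : (1 : ℝ) ≤ B ^ 9 := one_le_pow₀ hB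
  have h11 : δ ^ 6 ≤ (1 / 2) ^ 6 := pow_le_pow_left₀ hδ.le hδ1 6
  have h12 : 64 * δ ^ 10 ≤ δ ^ 2 * δ ^ 2 := by
    have h13 : δ ^ 4 * δ ^ 6 ≤ δ ^ 4 * (1 / 2) ^ 6 := mul_le_mul_of_nonneg_left h11 (by positivity)
    have h14 : 64 * δ ^ 10 = 64 * (δ ^ 4 * δ ^ 6) := by ring
    have h15 : δ ^ 2 * δ ^ 2 = 64 * (δ ^ 4 * (1 / 2) ^ 6) := by ring
    rw [h14, h15]
    linarith
  have h13 : δ ^ 2 * δ ^ 2 * 1 ≤ δ ^ 2 * δ ^ 2 * B ^ 9 :=
    mul_le_mul_of_nonneg_left h10 (by positivity)
  linarith

/-- Among three colours at most one has a strict majority. -/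
theorem two_colours {V α : Type} (H : Finset V) (f : V → α) (L : Finset α) (hL : 3 ≤ L.card) :
    ∃ a ∈ L, ∃ b ∈ L, a ≠ b ∧ 2 * (H.filter (fun w => f w = a)).card ≤ H.card ∧
      2 * (H.filter (fun w => f w = b)).card ≤ H.card := by
  obtain ⟨Bad, hBad⟩ : ∃ Bad, Bad = L.filter (fun c => H.card < 2 * (H.filter (fun w => f w = c)).card) :=
    ⟨_, rfl⟩
  have hBad1 : Bad.card ≤ 1 := by
    rw [card_le_one]
    intro x hx y hy
    rw [hBad, mem_filter] at hx hy
    by_contra hne
    have hdis : Disjoint (H.filter (fun w => f w = x)) (H.filter (fun w => f w = y)) := by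
      rw [disjoint_left]
      intro w hw hw2
      rw [mem_filter] at hw hw2
      exact hne (hw.2.symm.trans hw2.2)
    have h1 := card_union_of_disjoint hdis
    have h2 : (H.filter (fun w => f w = x) ∪ H.filter (fun w => f w = y)).card ≤ H.card :=
      card_le_card (union_subset (filter_subset _ _) (filter_subset _ _))
    omega
  have h1 : 1 < (L \ Bad).card := by
    have := le_card_sdiff Bad L
    omega
  obtain ⟨a, ha, b, hb, hab⟩ := one_lt_card.1 h1
  rw [mem_sdiff] at ha hb
  refine ⟨a, ha.1, b, hb.1, hab, ?_, ?_⟩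
  · by_contra hcon
    rw [not_le] at hcon
    exact ha.2 (by rw [hBad, mem_filter]; exact ⟨ha.1, hcon⟩)
  · by_contra hcon
    rw [not_le] at hcon
    exact hb.2 (by rw [hBad, mem_filter]; exact ⟨hb.1, hcon⟩)

/-- One stage: the vertices of level `J` are coloured. -/
theorem step {V α : Type} [Fintype V] (N : V → Finset V) (lev : V → ℕ) (deg : V → ℝ)
    (L : V → Finset α) (hL : ∀ v, (L v).card = 3) (δ D M : ℝ) (J : ℕ)
    (hN : ∀ v, ((N v).card : ℝ) ≤ deg v) (hD : ∀ v, 1 ≤ lev v → J ≤ lev v → D ≤ deg v)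
    (hM : ∀ u, lev u = J → ((univ.filter fun v => u ∈ N v).card : ℝ) ≤ M) (hM0 : 0 ≤ M)
    (hδ : 0 ≤ δ) (c1 : 4 ≤ δ ^ 2 * D) (c2 : 4 * M * Real.exp (-(δ ^ 2 * D)) ≤ δ ^ 2)
    (f : V → α) : ∃ g : V → α, (∀ u, lev u ≠ J → g u = f u) ∧
      (∀ u, lev u = J → g u ∈ L u ∧ 2 * ((N u).filter (fun w => J < lev w ∧ g w = g u)).card ≤
        ((N u).filter (fun w => J < lev w)).card) ∧
      ∀ v, 1 ≤ lev v → J ≤ lev v → ∀ c ∈ L v,
        (((N v).filter (fun w => lev w = J ∧ g w = c)).card : ℝ) ≤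
          (((N v).filter (fun w => lev w = J)).card : ℝ) / 2 + δ * deg v := by
  choose a ha b hb hab h2a h2b using
    fun u => two_colours ((N u).filter (fun w => J < lev w)) f (L u) (hL u).ge
  obtain ⟨ω, hω⟩ := stage (V := V) (α := α) (ι := {v : V // 1 ≤ lev v ∧ J ≤ lev v})
    (fun i => (N i.1).filter (fun w => lev w = J)) (fun i => L i.1) (fun i => deg i.1) D M δ a b
    hab (fun i => (hL i.1).le)
    (fun i => by
      refine le_trans ?_ (hN i.1)
      exact_mod_cast card_le_card (filter_subset _ _))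
    (fun i => hD i.1 i.2.1 i.2.2)
    (fun u => by
      by_cases hu : lev u = J
      · refine le_trans ?_ (hM u hu)
        refine Nat.cast_le.2 (card_le_card_of_injOn (fun i => i.1) ?_ ?_)
        · intro i hi
          rw [mem_coe, mem_filter] at hi ⊢
          exact ⟨mem_univ _, (mem_filter.1 hi.2).1⟩
        · intro i _ j _ h
          exact Subtype.ext h
      · have h0 : (univ.filter fun i : {v : V // 1 ≤ lev v ∧ J ≤ lev v} =>
            u ∈ (N i.1).filter (fun w => lev w = J)) = ∅ := by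
          refine filter_eq_empty_iff.2 fun i _ h => hu (mem_filter.1 h).2
        rw [h0, card_empty, Nat.cast_zero]
        exact hM0) hM0 hδ c1 c2
  obtain ⟨g, hg⟩ : ∃ g : V → α, g = fun u => if lev u = J then
    (if ω u = true then a u else b u) else f u := ⟨_, rfl⟩
  have hg1 : ∀ u, lev u = J → g u = if ω u = true then a u else b u := by
    intro u hu
    rw [hg]
    exact if_pos hu
  have hg2 : ∀ u, lev u ≠ J → g u = f u := by
    intro u hu
    rw [hg]
    exact if_neg hu
  refine ⟨g, hg2, fun u hu => ?_, fun v hv hJv c hc => ?_⟩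
  · have hset : ∀ c, (N u).filter (fun w => J < lev w ∧ g w = c) =
        ((N u).filter (fun w => J < lev w)).filter (fun w => f w = c) := by
      intro c
      rw [filter_filter]
      refine filter_congr fun w _ => and_congr_right fun hw => ?_
      rw [hg2 w (by omega)]
    rw [hset, hg1 u hu]
    rcases hb' : ω u with _ | _
    · rw [if_neg (by simp)]
      exact ⟨hb u, h2b u⟩
    · rw [if_pos rfl]
      exact ⟨ha u, h2a u⟩
  · have hset : (N v).filter (fun w => lev w = J ∧ g w = c) =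
        ((N v).filter (fun w => lev w = J)).filter
          (fun w => (if ω w = true then a w else b w) = c) := by
      rw [filter_filter]
      refine filter_congr fun w _ => and_congr_right fun hw => ?_
      rw [hg1 w hw]
    rw [hset]
    exact hω ⟨v, hv, hJv⟩ c hc

theorem main3 {V α : Type} [Fintype V] (A : V → V → Prop) (ε B : ℝ) (hε : 0 < ε) (hε1 : ε ≤ 1)
    (hB : 1 ≤ B)
    (hA : ∀ v, (indeg A v : ℝ) ≤ B * max (outdeg A v : ℝ) (640 * Real.log (2 * B / ε) / ε ^ 2))
    (L : V → Finset α) (hL : ∀ v, (L v).card = 3) :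
    ∃ f : V → α, (∀ v, f v ∈ L v) ∧ ∀ v, 640 * Real.log (2 * B / ε) / ε ^ 2 ≤ outdeg A v →
      (own A f v : ℝ) ≤ (1 / 2 + ε) * outdeg A v := by
  obtain ⟨T, hT⟩ : ∃ T : ℝ, T = Real.log (2 * B / ε) := ⟨_, rfl⟩
  have hB0 : 0 < B := by linarith
  have hT2 : Real.log 2 ≤ T := by
    rw [hT]
    refine Real.log_le_log (by norm_num) ?_
    rw [le_div_iff₀ hε]
    linarith
  have hT0 : 0 < T := lt_of_lt_of_le (Real.log_pos (by norm_num)) hT2
  obtain ⟨K, hK⟩ : ∃ K : ℝ, K = 640 * T / ε ^ 2 := ⟨_, rfl⟩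
  have hK0 : 0 < K := by rw [hK]; positivity
  rw [← hT, ← hK] at hA
  obtain ⟨N, hN⟩ : ∃ N : V → Finset V, N = fun v => univ.filter fun u => A v u := ⟨_, rfl⟩
  have hNm : ∀ v u, u ∈ N v ↔ A v u := by
    intro v u
    rw [hN]
    simp
  have hNc : ∀ v, (N v).card = outdeg A v := by
    intro v
    rw [hN]
    rfl
  have hex : ∀ v, ∃ j : ℕ, (outdeg A v : ℝ) < K * 16 ^ j := by
    intro v
    obtain ⟨j, hj⟩ := pow_unbounded_of_one_lt ((outdeg A v : ℝ) / K) (show (1 : ℝ) < 16 by norm_num)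
    refine ⟨j, ?_⟩
    rw [div_lt_iff₀ hK0] at hj
    linarith
  obtain ⟨lev, hlev⟩ : ∃ lev : V → ℕ, lev = fun v => Nat.find (hex v) := ⟨_, rfl⟩
  have hlev1 : ∀ v, (outdeg A v : ℝ) < K * 16 ^ lev v := by
    intro v
    rw [hlev]
    exact Nat.find_spec (hex v)
  have hlev2 : ∀ v j, j < lev v → K * 16 ^ j ≤ (outdeg A v : ℝ) := by
    intro v j hj
    rw [hlev] at hj
    exact not_lt.1 (Nat.find_min (hex v) hj)
  obtain ⟨δ, hδ⟩ : ∃ δ : ℕ → ℝ, δ = fun i => ε / 2 ^ (i + 1) := ⟨_, rfl⟩
  have hδi : ∀ i, δ i = ε / 2 ^ (i + 1) := fun i => by rw [hδ]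
  have hδ0 : ∀ i, 0 < δ i := fun i => by rw [hδi]; positivity
  have hδ1 : ∀ i, δ i ≤ 1 / 2 := by
    intro i
    rw [hδi, div_le_div_iff₀ (by positivity) (by norm_num)]
    have : (1 : ℝ) ≤ 2 ^ i := one_le_pow₀ (by norm_num)
    rw [pow_succ]
    linarith
  -- the numerical conditions
  have hnum : ∀ J : ℕ, 20 * Real.log (B / δ J) ≤ δ J ^ 2 * (K * 16 ^ (J - 1)) := by
    intro J
    have h0 : Real.log (B / δ J) = T + J * Real.log 2 := by
      rw [hT, ← Real.log_pow, ← Real.log_mul (by positivity) (by positivity), hδi]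
      congr 1
      rw [pow_succ]
      field_simp
    have h1 : δ J ^ 2 * (K * 16 ^ (J - 1)) = 640 * T * (16 ^ (J - 1) / (2 ^ (J + 1)) ^ 2) := by
      rw [hδi, hK, div_pow]
      field_simp
    rw [h0, h1]
    have h2 : (J : ℝ) * Real.log 2 ≤ J * T := mul_le_mul_of_nonneg_left hT2 (Nat.cast_nonneg _)
    have h3 : ((1 : ℝ) + J) / 32 ≤ 16 ^ (J - 1) / (2 ^ (J + 1)) ^ 2 := by
      rw [div_le_div_iff₀ (by norm_num) (by positivity)]
      rcases Nat.eq_zero_or_pos J with h0 | h0
      · subst h0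
        norm_num
      · obtain ⟨k, rfl⟩ : ∃ k, J = k + 1 := ⟨J - 1, by omega⟩
        rw [Nat.add_sub_cancel]
        have h3 : ((2 : ℝ) ^ (k + 1 + 1)) ^ 2 = 16 * 4 ^ k := by
          rw [← pow_mul, show (4 : ℝ) = 2 ^ 2 by norm_num, show (16 : ℝ) = 2 ^ 4 by norm_num,
            ← pow_mul, ← pow_add]
          congr 1
          ring
        have h4 : (16 : ℝ) ^ k = 4 ^ k * 4 ^ k := by
          rw [← mul_pow]
          norm_num
        have h5 : ((k : ℝ) + 2) ≤ 2 * 4 ^ k := by
          have h6 : (k : ℝ) + 1 ≤ 2 ^ k := by exact_mod_cast Nat.lt_two_pow_self (n := k)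
          have h7 : (2 : ℝ) ^ k ≤ 4 ^ k := pow_le_pow_left₀ (by norm_num) (by norm_num) k
          have h8 : (1 : ℝ) ≤ 4 ^ k := one_le_pow₀ (by norm_num)
          linarith
        have h6 : (0 : ℝ) < 4 ^ k := by positivity
        rw [h3, h4]
        push_cast
        have h7 := mul_le_mul_of_nonneg_right h5 h6.le
        linarith
    have h4 := mul_le_mul_of_nonneg_left h3 (by positivity : (0 : ℝ) ≤ 640 * T)
    have h5 : 640 * T * (((1 : ℝ) + J) / 32) = 20 * (T + J * T) := by ring
    linarith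
  have hMD : ∀ J : ℕ, B * (K * 16 ^ J) ≤ 16 * B * (K * 16 ^ (J - 1)) := by
    intro J
    have h1 : (16 : ℝ) ^ J ≤ 16 * 16 ^ (J - 1) := by
      rw [← pow_succ']
      exact pow_le_pow_right₀ (by norm_num) (by omega)
    have h2 := mul_le_mul_of_nonneg_left h1 (by positivity : (0 : ℝ) ≤ B * K)
    calc B * (K * 16 ^ J) = B * K * 16 ^ J := by ring
      _ ≤ B * K * (16 * 16 ^ (J - 1)) := h2
      _ = _ := by ring
  -- the colourings
  obtain ⟨J0, hJ0⟩ : ∃ J0 : ℕ, ∀ v, lev v < J0 := by
    refine ⟨univ.sup lev + 1, fun v => ?_⟩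
    exact Nat.lt_succ_of_le (le_sup (f := lev) (mem_univ v))
  have hmain : ∀ k, k ≤ J0 → ∃ f : V → α,
      (∀ u, J0 - k ≤ lev u → f u ∈ L u ∧
        2 * ((N u).filter (fun w => lev u < lev w ∧ f w = f u)).card ≤
          ((N u).filter (fun w => lev u < lev w)).card) ∧
      ∀ v, 1 ≤ lev v → ∀ i, J0 - k ≤ i → i ≤ lev v → ∀ c ∈ L v,
        (((N v).filter (fun w => lev w = i ∧ f w = c)).card : ℝ) ≤
          (((N v).filter (fun w => lev w = i)).card : ℝ) / 2 + δ i * outdeg A v := by
    intro k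
    induction k with
    | zero =>
      intro _
      have hne : ∀ v, ∃ c, c ∈ L v := by
        intro v
        have : 0 < (L v).card := by rw [hL v]; norm_num
        exact card_pos.1 this
      choose f hf using hne
      refine ⟨f, fun u hu => ?_, fun v _ i hi hiv => ?_⟩
      · have := hJ0 u
        omega
      · have := hJ0 v
        omega
    | succ k ih =>
      intro hk
      obtain ⟨f, hf1, hf2⟩ := ih (by omega)
      obtain ⟨J, hJ⟩ : ∃ J, J = J0 - (k + 1) := ⟨_, rfl⟩
      have hJk : J0 - k = J + 1 := by omega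
      rw [← hJ]
      rw [hJk] at hf1 hf2
      obtain ⟨c1, c2⟩ := num hB (hδ0 J) (hδ1 J) (hnum J) (hMD J)
      obtain ⟨g, hg1, hg2, hg3⟩ := step N lev (fun v => (outdeg A v : ℝ)) L hL (δ J)
        (K * 16 ^ (J - 1)) (B * (K * 16 ^ J)) J (fun v => by rw [hNc])
        (fun v h1 h2 => hlev2 v (J - 1) (by omega))
        (fun u hu => by
          have h1 : ((univ.filter fun v => u ∈ N v).card : ℝ) = indeg A u := by
            unfold indeg
            congr 2
            ext v
            simp only [mem_filter, mem_univ, true_and, hNm]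
          rw [h1]
          refine (hA u).trans (mul_le_mul_of_nonneg_left (max_le ?_ ?_) (by linarith))
          · rw [← hu]
            exact (hlev1 u).le
          · exact le_mul_of_one_le_right hK0.le (one_le_pow₀ (by norm_num)))
        (by positivity) (hδ0 J).le c1 c2 f
      refine ⟨g, fun u hu => ?_, fun v hv i hi hiv c hc => ?_⟩
      · rcases hu.eq_or_lt with h | h
        · have h2 := hg2 u h.symm
          rw [h] at h2
          exact h2
        · have h2 := hf1 u h
          rw [hg1 u (by omega)]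
          refine ⟨h2.1, ?_⟩
          have h3 : (N u).filter (fun w => lev u < lev w ∧ g w = f u) =
              (N u).filter (fun w => lev u < lev w ∧ f w = f u) := by
            refine filter_congr fun w _ => and_congr_right fun hw => ?_
            rw [hg1 w (by omega)]
          rw [h3]
          exact h2.2
      · rcases hi.eq_or_lt with h | h
        · rw [← h]
          exact hg3 v hv (by omega) c hc
        · have h3 : (N v).filter (fun w => lev w = i ∧ g w = c) =
              (N v).filter (fun w => lev w = i ∧ f w = c) := by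
            refine filter_congr fun w _ => and_congr_right fun hw => ?_
            rw [hg1 w (by omega)]
          rw [h3]
          exact hf2 v hv i h hiv c hc
  obtain ⟨f, hf1, hf2⟩ := hmain J0 le_rfl
  rw [Nat.sub_self] at hf1 hf2
  refine ⟨f, fun v => (hf1 v (Nat.zero_le _)).1, fun v hv => ?_⟩
  rw [← hT, ← hK] at hv
  have hlv : 1 ≤ lev v := by
    by_contra hcon
    have h0 : lev v = 0 := by omega
    have := hlev1 v
    rw [h0, pow_zero, mul_one] at this
    linarith
  obtain ⟨l, hl⟩ : ∃ l, l = lev v := ⟨_, rfl⟩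
  -- decomposition into levels
  have hdecc : ∀ P : V → Prop, ((N v).filter P).card =
      ((N v).filter (fun w => l < lev w ∧ P w)).card +
        ∑ i ∈ range (l + 1), ((N v).filter (fun w => lev w = i ∧ P w)).card := by
    intro P
    have h1 := card_filter_add_card_filter_not (s := (N v).filter P) (fun w => l < lev w)
    rw [filter_filter, filter_filter] at h1
    have h2 : ((N v).filter (fun w => P w ∧ ¬ l < lev w)).card =
        ∑ i ∈ range (l + 1), (((N v).filter (fun w => P w ∧ ¬ l < lev w)).filter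
          (fun w => lev w = i)).card :=
      card_eq_sum_card_fiberwise (fun w hw => by
        rw [mem_coe, mem_filter] at hw
        rw [mem_coe, mem_range]
        omega)
    rw [h2] at h1
    rw [← h1]
    congr 1
    · congr 1
      exact filter_congr fun w _ => and_comm
    · refine sum_congr rfl fun i hi => ?_
      rw [mem_range] at hi
      rw [filter_filter]
      congr 1
      refine filter_congr fun w _ => ?_
      constructor
      · rintro ⟨⟨h3, _⟩, h4⟩
        exact ⟨h4, h3⟩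
      · rintro ⟨h4, h3⟩
        exact ⟨⟨h3, by omega⟩, h4⟩
  have hown : own A f v = ((N v).filter (fun w => f w = f v)).card := by
    unfold own
    congr 1
    ext w
    simp only [mem_filter, mem_univ, true_and, hNm]
  have hdeg : outdeg A v = ((N v).filter (fun w => l < lev w)).card +
      ∑ i ∈ range (l + 1), ((N v).filter (fun w => lev w = i)).card := by
    have h1 := hdecc (fun _ => True)
    simp only [and_true, filter_true] at h1
    rw [← hNc, h1]
  have hhigh := (hf1 v (Nat.zero_le _)).2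
  rw [← hl] at hhigh
  have hhighR : (((N v).filter (fun w => l < lev w ∧ f w = f v)).card : ℝ) ≤
      (((N v).filter (fun w => l < lev w)).card : ℝ) / 2 := by
    have : ((2 * ((N v).filter (fun w => l < lev w ∧ f w = f v)).card : ℕ) : ℝ) ≤
      ((N v).filter (fun w => l < lev w)).card := by exact_mod_cast hhigh
    push_cast at this
    linarith
  have hsum : ∀ m : ℕ, ∑ i ∈ range m, δ i = ε - ε / 2 ^ m := by
    intro m
    induction m with
    | zero => simp
    | succ m ih =>
      rw [sum_range_succ, ih, hδi, pow_succ]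
      field_simp
      ring
  have hlow : ∑ i ∈ range (l + 1), (((N v).filter (fun w => lev w = i ∧ f w = f v)).card : ℝ) ≤
      (∑ i ∈ range (l + 1), (((N v).filter (fun w => lev w = i)).card : ℝ)) / 2 +
        ε * outdeg A v := by
    have h1 : ∑ i ∈ range (l + 1), (((N v).filter (fun w => lev w = i ∧ f w = f v)).card : ℝ) ≤
        ∑ i ∈ range (l + 1), ((((N v).filter (fun w => lev w = i)).card : ℝ) / 2 +
          δ i * outdeg A v) := by
      refine sum_le_sum fun i hi => hf2 v hlv i (Nat.zero_le _) ?_ (f v)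
        (hf1 v (Nat.zero_le _)).1
      rw [mem_range] at hi
      omega
    refine h1.trans ?_
    rw [sum_add_distrib, ← sum_div, ← sum_mul, hsum]
    have h2 : 0 ≤ ε / 2 ^ (l + 1) * (outdeg A v : ℝ) := by positivity
    linarith
  rw [hown, hdecc]
  have hdegR : (outdeg A v : ℝ) = (((N v).filter (fun w => l < lev w)).card : ℝ) +
      ∑ i ∈ range (l + 1), (((N v).filter (fun w => lev w = i)).card : ℝ) := by
    exact_mod_cast hdeg
  push_cast
  linarith

theorem main {V α : Type} [Fintype V] (A : V → V → Prop) (ε B : ℝ) (hε : 0 < ε) (hε1 : ε ≤ 1)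
    (hB : 1 ≤ B)
    (hA : ∀ v, (indeg A v : ℝ) ≤ B * max (outdeg A v : ℝ) (640 * Real.log (2 * B / ε) / ε ^ 2))
    (L : V → Finset α) (hL : ∀ v, 3 ≤ (L v).card) :
    ∃ f : V → α, (∀ v, f v ∈ L v) ∧ ∀ v, 640 * Real.log (2 * B / ε) / ε ^ 2 ≤ outdeg A v →
      (own A f v : ℝ) ≤ (1 / 2 + ε) * outdeg A v := by
  choose L' hL' hL3 using fun v => exists_subset_card_eq (hL v)
  obtain ⟨f, hf1, hf2⟩ := main3 A ε B hε hε1 hB hA L' hL3
  exact ⟨f, fun v => hL' v (hf1 v), hf2⟩

end Pool.Agent.H36.ME
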